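import Pool.Agent.H33.EAG.ALP
import Pool.Agent.H1.EAG.BLK
import Pool.Agent.H96.EAG.BRG
import Pool.Agent.H68.EAG.CHA
import Pool.Agent.H68.EAG.CHB
import Pool.Agent.H60.EAG.CHC
import Pool.Agent.H10.EAG.CNT
import Pool.Agent.H38.EAG.DET
import Pool.Agent.H50.EAG.DTX
import Pool.Agent.H10.EAG.FAI
import Pool.Agent.H96.EAG.FIB
import Pool.Agent.H60.EAG.IBL
import Pool.Agent.H38.EAG.LMB
import Pool.Agent.H89.EAG.MAIN
import Pool.Agent.H60.EAG.MRG
import Pool.Agent.H89.EAG.NBH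
import Pool.Agent.H33.EAG.NM1
import Pool.Agent.H68.EAG.NM2
import Pool.Agent.H50.EAG.NM3
import Pool.Agent.H60.EAG.OPT

/-!
# MP_a10695_co: almost all graphs satisfy the Erdos-Lovasz Tihany conjecture

`ELT G`: for all `a, b >= 2` with `G.chromaticNumber = a + b - 1` there are disjoint sets `S`, `T`
of vertices such that the induced graphs have the chromatic numbers `a` and `b`.

The theorem: the proportion of the graphs `G` on `n` labelled vertices with `ELT G` tends to `1`.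
-/

set_option autoImplicit false

open Filter Topology

namespace Pool.Agent.Results.MP_a10695_co.AlmostAllGraphs

open Pool.Agent.H39.EAG

theorem hALP : T_ALP := Pool.Agent.H33.EAG.pf_ALP
theorem hBRG : T_BRG := Pool.Agent.H96.EAG.BRG.pf_BRG
theorem hCHA : T_CHA := Pool.Agent.H68.EAG.pf_CHA
theorem hCHB : T_CHB := Pool.Agent.H68.EAG.pf_CHB hCHA
theorem hCHC : T_CHC := Pool.Agent.H60.EAG.pf_CHC hCHA
theorem hCNT : T_CNT := Pool.Agent.H10.EAG.pf_CNT
theorem hDTX : T_DTX := Pool.Agent.H50.EAG.pf_DTX hCHA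
theorem hFIB : T_FIB := Pool.Agent.H96.EAG.pf_FIB
theorem hIBL : T_IBL := Pool.Agent.H60.EAG.pf_IBL
theorem hMRG : T_MRG := Pool.Agent.H60.EAG.pf_MRG hCHA
theorem hNM1 : T_NM1 := Pool.Agent.H33.EAG.pf_NM1
theorem hNM2 : T_NM2 := Pool.Agent.H68.EAG.pf_NM2
theorem hNM3 : T_NM3 := Pool.Agent.H50.EAG.pf_NM3
theorem hOPT : T_OPT := Pool.Agent.H60.EAG.pf_OPT hCHA
theorem hBLK : T_BLK := Pool.Agent.H1.EAG.pf_BLK hFIB hCHA
theorem hDET : T_DET := Pool.Agent.H38.EAG.pf_DET hCHA hCHB hCHC hOPT hMRG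
theorem hLMB : T_LMB := Pool.Agent.H38.EAG.pf_LMB hFIB hCNT hOPT
theorem hNBH : T_NBH := Pool.Agent.H89.EAG.pf_NBH hIBL hBLK hDTX
theorem hFAI : T_FAI := Pool.Agent.H10.EAG.pf_FAI hCHA hCHB hDET hLMB hALP hNBH
theorem hMAIN : T_MAIN := Pool.Agent.H89.EAG.pf_MAIN hFAI hBRG hNM1 hNM2 hNM3

/-- Almost all graphs satisfy the Erdos-Lovasz Tihany conjecture, for all pairs `(a, b)`. -/
theorem result : Tendsto (fun n : ℕ =>
    (Nat.card {G : SimpleGraph (Fin n) // ELT G} : ℝ) / (Nat.card (SimpleGraph (Fin n)) : ℝ))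
    atTop (𝓝 1) :=
  hMAIN

end Pool.Agent.Results.MP_a10695_co.AlmostAllGraphs
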