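import Pool.Agent.H50.ELT.Final

/-!
MP_a10695_co: complements of claw-free graphs.
-/

namespace Pool.Agent.Results.MP_a10695_co.ClawFreeComplements

/-- Let `H` be a finite claw-free graph and `G = Hᶜ` with `χ(G) = a + b - 1`, `a, b ≥ 2`, and without
cliques with `a + b - 1` vertices.  Suppose that for every vertex `v` at least one of the following
holds: the component of `v` in `H` contains three pairwise non-adjacent vertices; the neighbourhood of
`v` in `H` is covered by two cliques of `H`; the component of `v` in `H` induces in `G` a graph with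
chromatic number at most `max a b + 2`.  Then `G` has disjoint vertex sets `S`, `T` with
`χ(G[S]) = a` and `χ(G[T]) = b`. -/
theorem result (V : Type) [Fintype V] (H : SimpleGraph V) (a b : ℕ) (ha : 2 ≤ a) (hb : 2 ≤ b)
    (hclaw : ∀ w x y z : V, H.Adj w x → H.Adj w y → H.Adj w z → x ≠ y → y ≠ z → x ≠ z →
      H.Adj x y ∨ H.Adj y z ∨ H.Adj x z)
    (hcomp : ∀ v : V,
      (∃ p q r : V, p ≠ q ∧ q ≠ r ∧ p ≠ r ∧ ¬ H.Adj p q ∧ ¬ H.Adj q r ∧ ¬ H.Adj p r ∧
        H.Reachable v p ∧ H.Reachable v q ∧ H.Reachable v r) ∨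
      (∃ A B : Set V, H.IsClique A ∧ H.IsClique B ∧ ∀ u, H.Adj v u → u ∈ A ∨ u ∈ B) ∨
      (Hᶜ.induce {u | H.Reachable v u}).Colorable (max a b + 2))
    (hχ : Hᶜ.chromaticNumber = ((a + b - 1 : ℕ) : ℕ∞))
    (hω : Hᶜ.CliqueFree (a + b - 1)) :
    ∃ S T : Set V, Disjoint S T ∧
      (Hᶜ.induce S).chromaticNumber = (a : ℕ∞) ∧
      (Hᶜ.induce T).chromaticNumber = (b : ℕ∞) := by
  classical
  have hG : ¬ Hᶜ.Colorable (a + b - 2) := by
    intro hc
    have := SimpleGraph.chromaticNumber_le_iff_colorable.2 hc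
    rw [hχ] at this
    have : a + b - 1 ≤ a + b - 2 := by exact_mod_cast this
    omega
  have hadj : ∀ x y, x ≠ y → ¬ Hᶜ.Adj x y → H.Adj x y := by
    intro x y hxy h
    rw [SimpleGraph.compl_adj] at h
    by_contra h'
    exact h ⟨hxy, h'⟩
  refine Pool.Agent.H50.ELT.split_main Hᶜ a b ha hb hG hω ?_ ?_
  · intro w x y z hxy hyz hxz hwx hwy hwz
    by_contra hcon
    push Not at hcon
    rcases hclaw w x y z (hadj _ _ hwx hcon.1) (hadj _ _ hwy hcon.2.1) (hadj _ _ hwz hcon.2.2)
      hxy.ne hyz.ne hxz.ne with h | h | h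
    · exact ((SimpleGraph.compl_adj _ _ _).1 hxy).2 h
    · exact ((SimpleGraph.compl_adj _ _ _).1 hyz).2 h
    · exact ((SimpleGraph.compl_adj _ _ _).1 hxz).2 h
  · intro v
    rcases hcomp v with h | h | h
    · left
      obtain ⟨p, q, r, h1, h2, h3, h4, h5, h6, h7, h8, h9⟩ := h
      refine ⟨p, q, r, ?_, ?_, ?_, ?_, ?_, ?_⟩
      · exact (SimpleGraph.compl_adj _ _ _).2 ⟨h1, h4⟩
      · exact (SimpleGraph.compl_adj _ _ _).2 ⟨h2, h5⟩
      · exact (SimpleGraph.compl_adj _ _ _).2 ⟨h3, h6⟩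
      · rwa [compl_compl]
      · rwa [compl_compl]
      · rwa [compl_compl]
    · right; left
      obtain ⟨A, B, hA, hB, hAB⟩ := h
      refine ⟨SimpleGraph.Coloring.mk (fun u => if (u : V) ∈ A then (0 : Fin 2) else 1) ?_⟩
      intro x y hxy
      have hxy' : Hᶜ.Adj (x : V) (y : V) := hxy
      have hne := hxy'.ne
      have hn := ((SimpleGraph.compl_adj _ _ _).1 hxy').2
      have hx := hadj v x x.2.1.symm x.2.2
      have hy := hadj v y y.2.1.symm y.2.2
      by_cases hxA : (x : V) ∈ A <;> by_cases hyA : (y : V) ∈ A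
      · exact absurd (hA hxA hyA hne) hn
      · simp [hxA, hyA]
      · simp [hxA, hyA]
      · exact absurd (hB ((hAB x hx).resolve_left hxA) ((hAB y hy).resolve_left hyA) hne) hn
    · right; right
      rwa [compl_compl]

end Pool.Agent.Results.MP_a10695_co.ClawFreeComplements
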