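import Pool.Agent.H69.ELT.FracMain

/-!
MP_a10695_co: graphs of large fractional chromatic number.
-/

namespace Pool.Agent.Results.MP_a10695_co.FractionalChromatic

/-- Let `a, b ≥ 2` and let `G` be a finite graph without a clique on `a + b - 1` vertices.  Suppose
that there are weights `q v ≥ 0` on the vertices with total weight greater than `a + b - 2` such that
every independent set has weight at most `1` (that is, the fractional chromatic number of `G` is greater
than `a + b - 2`).  Then `G` has disjoint vertex sets `S`, `T` with `χ(G[S]) = a` and `χ(G[T]) = b`. -/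
theorem result (V : Type) [Fintype V] (G : SimpleGraph V) (a b : ℕ) (ha : 2 ≤ a) (hb : 2 ≤ b)
    (q : V → ℝ) (hq : ∀ v, 0 ≤ q v)
    (hI : ∀ I : Finset V, G.IsIndepSet (I : Set V) → ∑ v ∈ I, q v ≤ 1)
    (hX : (a : ℝ) + b - 2 < ∑ v, q v) (hω : G.CliqueFree (a + b - 1)) :
    ∃ S T : Set V, Disjoint S T ∧
      (G.induce S).chromaticNumber = (a : ℕ∞) ∧
      (G.induce T).chromaticNumber = (b : ℕ∞) := by
  classical
  exact Pool.Agent.H69.ELT.split_frac G a b ha hb q hq hI hX hω

end Pool.Agent.Results.MP_a10695_co.FractionalChromatic
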