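import Pool.Agent.H50.ELT.SgMain

/-!
MP_a10695_co: Kneser graphs, Schrijver graphs and all graphs containing a Schrijver graph.
-/

namespace Pool.Agent.Results.MP_a10695_co.SchrijverSubgraphs

/-- The vertices of the Schrijver graph `SG(n, r)`: the sets of `r` elements of the cyclically
ordered set `{0, ..., n-1}` without two consecutive elements. -/
def StableSet (n r : ℕ) : Type :=
  {S : Finset (Fin n) // S.card = r ∧ ∀ i ∈ S, ∀ j ∈ S, (i.val + 1) % n ≠ j.val}

/-- Let `r ≥ 2` and `a, b ≥ 2` with `a + b - 1 = n - 2 r + 2`, the chromatic number of the Kneser graph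
`KG(n, r)` and of the Schrijver graph `SG(n, r)`.  Every finite graph `G` which contains `SG(n, r)` as
a subgraph (for instance `KG(n, r)` or `SG(n, r)`) has disjoint vertex sets `S`, `T` with
`χ(G[S]) = a` and `χ(G[T]) = b`. -/
theorem result (n r a b : ℕ) (hr : 2 ≤ r) (ha : 2 ≤ a) (hb : 2 ≤ b)
    (hn : a + b - 1 + 2 * r = n + 2) (V : Type) [Fintype V] (G : SimpleGraph V)
    (f : StableSet n r → V) (hf : Function.Injective f)
    (hadj : ∀ S T : StableSet n r, Disjoint S.1 T.1 → G.Adj (f S) (f T)) :
    ∃ S T : Set V, Disjoint S T ∧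
      (G.induce S).chromaticNumber = (a : ℕ∞) ∧
      (G.induce T).chromaticNumber = (b : ℕ∞) :=
  Pool.Agent.H50.ELT.split_sg hr ha hb (by omega) G f hf hadj

end Pool.Agent.Results.MP_a10695_co.SchrijverSubgraphs
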